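import Mathlib
import Pool.Agent.Lead.OrdA

namespace Pool.Agent.Results.MP_4db40a_lc.Q1
open Pool.Agent.Lead.OrdA

/-- `w` is a word over the alphabet `U` (letters are natural numbers). -/
def Over (U : Finset ℕ) (w : List ℕ) : Prop := ∀ a ∈ w, a ∈ U

/-- `S` is an ordered language over `U`. -/
def ORD (U : Finset ℕ) (S : Set (List ℕ)) : Prop :=
  ∃ (n : ℕ) (δ : Fin n → ℕ → Fin n) (z₀ : Fin n) (F : Set (Fin n)),
    (∀ a ∈ U, Monotone fun z => δ z a) ∧ ∀ w, w ∈ S ↔ Over U w ∧ w.foldl δ z₀ ∈ F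

/-- `S` is a strictly locally `k`-testable language over `U`. -/
def SLT (k : ℕ) (U : Finset ℕ) (S : Set (List ℕ)) : Prop :=
  (∀ w ∈ S, Over U w) ∧ ∃ B I E : Set (List ℕ), ∀ w, Over U w → k ≤ w.length →
    (w ∈ S ↔ w.take k ∈ B ∧ w.drop (w.length - k) ∈ E ∧
      ∀ j, 1 ≤ j → j + k + 1 ≤ w.length → (w.drop j).take k ∈ I)

/-- Contextual grammars with selection languages in the family `𝔏`; a selection pair is
`(U, S, C)`. -/
structure Gr (𝔏 : Finset ℕ → Set (List ℕ) → Prop) where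
  V : Finset ℕ
  A : Finset (List ℕ)
  hA : ∀ w ∈ A, Over V w
  P : List (Finset ℕ × Set (List ℕ) × Finset (List ℕ × List ℕ))
  hP : ∀ p ∈ P, p.1 ⊆ V ∧ 𝔏 p.1 p.2.1 ∧ ∀ c ∈ p.2.2, Over V c.1 ∧ Over V c.2

def Step {𝔏} (G : Gr 𝔏) (x y : List ℕ) : Prop :=
  ∃ p ∈ G.P, x ∈ p.2.1 ∧ ∃ c ∈ p.2.2, y = c.1 ++ x ++ c.2

def lang {𝔏} (G : Gr 𝔏) : Set (List ℕ) := {w | ∃ a ∈ G.A, Relation.ReflTransGen (Step G) a w}

def EC (𝔏 : Finset ℕ → Set (List ℕ) → Prop) : Set (Set (List ℕ)) := {L | ∃ G : Gr 𝔏, lang G = L}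

def O (w : List ℕ) : Prop := ∀ a ∈ w, a < 3

def L : Set (List ℕ) := {w | O w ∨ ∃ v, OK v ∧ w = 3 :: v ++ [3]}

lemma over_iff (w : List ℕ) : Over {0, 1, 2} w ↔ O w :=
  forall₂_congr fun a _ => by simp; omega

lemma chain_iff (w : List ℕ) : w.IsChain (· ≠ ·) ↔
    ∀ j, j + 2 ≤ w.length → ((w.drop j).take 2).IsChain (· ≠ ·) := by
  refine ⟨fun h j _ => (h.drop j).take 2, fun h => List.isChain_iff_getElem.2 fun i hi => ?_⟩
  have := h i (by omega)
  rw [List.isChain_iff_getElem] at this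
  simpa using this 0 (by simp; omega)

def G2 : Gr (SLT 2) where
  V := {0, 1, 2, 3}
  A := {[]}
  hA := by simp [Over]
  P := [({0, 1, 2}, {w | O w}, {([], [0]), ([], [1]), ([], [2])}),
    ({0, 1, 2}, {w | OK w}, {([3], [3])})]
  hP := by
    simp only [List.mem_cons, List.not_mem_nil, or_false, forall_eq_or_imp, forall_eq]
    refine ⟨⟨by decide, ⟨fun w h => (over_iff w).2 h, .univ, .univ, .univ, fun w h _ => ?_⟩,
      by simp [Over]⟩, by decide, ⟨fun w h => (over_iff w).2 h.1, {w | w.IsChain (· ≠ ·)},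
      {w | w.IsChain (· ≠ ·)}, {w | w.IsChain (· ≠ ·)}, fun w h hw => ?_⟩, by simp [Over]⟩
    · simpa using (over_iff w).1 h
    · refine ⟨fun h => ⟨h.2.take 2, h.2.drop _, fun j _ _ => (h.2.drop j).take 2⟩,
        fun ⟨h1, h2, h3⟩ => ⟨(over_iff w).1 h, (chain_iff w).2 fun j hj => ?_⟩⟩
      by_cases a : j = 0
      · subst a; exact h1
      by_cases b : j + 2 = w.length
      · rw [show j = w.length - 2 by omega]; exact List.IsChain.take h2 2
      exact h3 j (by omega) (by omega)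

lemma lang_G2 : lang G2 = L := by
  ext w
  constructor
  · rintro ⟨a, ha, h⟩
    induction h with
    | refl => left; simp_all [G2, O]
    | tail _ h _ =>
      obtain ⟨p, hp, hx, c, hc, rfl⟩ := h
      simp only [G2, List.mem_cons, List.not_mem_nil, or_false] at hp
      rcases hp with rfl | rfl
      · left
        intro a ha
        simp only [Finset.mem_insert, Finset.mem_singleton] at hc
        rcases hc with rfl | rfl | rfl <;> simp at ha <;> rcases ha with ha | rfl <;>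
          first | exact hx a ha | omega
      · obtain rfl := Finset.mem_singleton.1 hc
        exact Or.inr ⟨_, hx, rfl⟩
  · have key : ∀ w, O w → Relation.ReflTransGen (Step G2) [] w := by
      intro w
      induction w using List.reverseRecOn with
      | nil => exact fun _ => .refl
      | append_singleton w a ih =>
        intro h
        have h1 : O w := fun b hb => h b (by simp [hb])
        have h2 : a < 3 := h a (by simp)
        refine (ih h1).tail ⟨_, List.mem_cons_self, h1, ([], [(a : ℕ)]), ?_, rfl⟩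
        simp; omega
    rintro (h | ⟨v, h, rfl⟩)
    · exact ⟨[], by simp [G2], key w h⟩
    · exact ⟨[], by simp [G2], (key v h.1).tail
        ⟨_, List.mem_cons_of_mem _ List.mem_cons_self, h, ([3], [3]), by simp, rfl⟩⟩

lemma last_step {𝔏} (G : Gr 𝔏) {y} (h : y ∈ lang G) : y ∈ G.A ∨ ∃ p ∈ G.P, ∃ c ∈ p.2.2, ∃ x,
    x ∈ lang G ∧ x ∈ p.2.1 ∧ y = c.1 ++ x ++ c.2 ∧ (c.1 ≠ [] ∨ c.2 ≠ []) := by
  obtain ⟨a, ha, h⟩ := h
  induction h with
  | refl => exact Or.inl ha
  | tail h1 h ih =>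
    obtain ⟨p, hp, hx, c, hc, rfl⟩ := h
    by_cases e : c.1 ≠ [] ∨ c.2 ≠ []
    · exact Or.inr ⟨p, hp, c, hc, _, ⟨a, ha, h1⟩, hx, rfl, e⟩
    · push Not at e
      simpa [e.1, e.2] using ih

lemma not_ord : L ∉ EC ORD := by
  rintro ⟨G, hL⟩
  obtain ⟨p0, hp0, ok0⟩ := OK.ext (u := []) (by simp [OK]) (G.A.sup List.length)
  obtain ⟨⟨p, u, v⟩, hi, q, hq, dens⟩ := baire
    (fun (i : (Finset ℕ × Set (List ℕ) × Finset (List ℕ × List ℕ)) × List ℕ × List ℕ) w =>
      ∃ x, O x ∧ x ∈ i.1.2.1 ∧ i.2.1 ++ x ++ i.2.2 = 3 :: w ++ [3])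
    (G.P.flatMap fun p => p.2.2.toList.map fun c => (p, c)) p0 (by simpa using ok0) (by
      intro w hw
      have hm : 3 :: (p0 ++ w) ++ [3] ∈ L := Or.inr ⟨_, hw, rfl⟩
      rcases last_step G (hL ▸ hm : _ ∈ lang G) with h | h
      · have := Finset.le_sup (f := List.length) h
        simp only [List.length_append, List.length_cons] at this; omega
      obtain ⟨p, hp, ⟨u, v⟩, hc, x, hx, hS, e, ne⟩ := h
      refine ⟨(p, u, v), by simpa using ⟨hp, hc⟩, x, ?_, hS, e.symm⟩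
      rw [hL] at hx
      refine hx.resolve_right ?_
      rintro ⟨w', -, rfl⟩
      have c0 : (p0 ++ w).count 3 = 0 := List.count_eq_zero.2 fun h => by simpa using hw.1 3 h
      have c1 := congrArg (List.count 3) e
      rcases ne with ne | ne
      · obtain ⟨a, u, rfl⟩ := List.exists_cons_of_ne_nil ne
        obtain rfl : 3 = a := by simpa using congrArg List.head? e
        simp only [List.count_append, List.count_cons_self, List.count_nil] at c0 c1
        omega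
      · obtain ⟨v, a, rfl⟩ := (List.eq_nil_or_concat v).resolve_left ne
        rw [List.concat_eq_append] at e c1
        obtain rfl : 3 = a := by
          simpa using (List.append_inj' (e.trans (List.append_assoc _ _ _).symm) rfl).2
        simp only [List.count_append, List.count_cons_self, List.count_nil] at c0 c1
        omega)
  obtain ⟨hp, hc⟩ : p ∈ G.P ∧ (u, v) ∈ p.2.2 := by
    simp only [List.mem_flatMap, List.mem_map, Finset.mem_toList] at hi
    obtain ⟨p', h1, c, h2, e⟩ := hi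
    cases e
    exact ⟨h1, h2⟩
  obtain ⟨n, δ, z0, F, mono, hS⟩ := (G.hP p hp).2.1
  obtain ⟨r, hr, hq1⟩ := hq.ext u.length
  replace dens : ∀ w, OK (q ++ r ++ w) → ∃ w' x, O x ∧ x ∈ p.2.1 ∧
      u ++ x ++ v = 3 :: (q ++ r) ++ w ++ w' ++ [3] := fun w hw => by
    simpa using dens (r ++ w) (by simpa using hw)
  have hlen : u.length ≤ (q ++ r).length := by simp; omega
  generalize q ++ r = q1 at dens hq1 hlen
  obtain ⟨s, hs⟩ : u <+: 3 :: q1 := by
    obtain ⟨w', x, -, -, e⟩ := dens [] (by simpa using hq1)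
    exact List.prefix_of_prefix_length_le (l₃ := u ++ x ++ v) ⟨x ++ v, by simp⟩
      ⟨w' ++ [3], by simp [e]⟩ (by simp; omega)
  have one : ∀ w, OK (q1 ++ w) → ∃ t, s ++ w ++ t ∈ p.2.1 ∧ O (s ++ w ++ t) := by
    intro w hw
    obtain ⟨r, hr, h⟩ := hw.ext v.length
    obtain ⟨w', x, h1, h2, e⟩ := dens (w ++ r) (by simpa using h)
    rw [← hs] at e
    have e' : x ++ v = s ++ w ++ (r ++ w' ++ [3]) := by simpa using e
    have hl := congrArg List.length e'
    obtain ⟨t, rfl⟩ := List.prefix_of_prefix_length_le (l₁ := s ++ w) (l₂ := x) (l₃ := x ++ v)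
      ⟨_, e'.symm⟩ ⟨v, rfl⟩ (by simp at hl ⊢; omega)
    exact ⟨t, h2, h1⟩
  have two : ∀ w t, s ++ w ++ t ∈ p.2.1 → O (s ++ w ++ t) → OK (q1 ++ w) := by
    intro w t h1 h2
    obtain ⟨a, ha, h⟩ : s ++ w ++ t ∈ lang G := hL ▸ Or.inl h2
    have : u ++ (s ++ w ++ t) ++ v ∈ L := hL ▸ ⟨a, ha, h.tail ⟨p, hp, h1, _, hc, rfl⟩⟩
    rw [show u ++ (s ++ w ++ t) ++ v = 3 :: (q1 ++ w ++ (t ++ v)) by
      simp only [← List.append_assoc, hs, List.cons_append]] at this
    rcases this with h | ⟨w', h, e⟩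
    · simpa using h 3 (by simp)
    · rcases List.prefix_concat_iff.1 ⟨_, (List.cons.inj e).2⟩ with e | ⟨x, e⟩
      · have : 3 ∈ q1 ++ w := by simp [e]
        rcases List.mem_append.1 this with h | h
        · simpa using hq1.1 3 h
        · simpa using h2 3 (by simp [h])
      · exact OK.pre (e ▸ h)
  have hU : ∀ a : Fin 3, (a : ℕ) ∈ p.1 := by
    intro a
    obtain ⟨r, h⟩ := hq1.ext1 a a.2
    obtain ⟨t, h1, -⟩ := one (r ++ [(a : ℕ)]) (by simpa using h)
    exact ((hS _).1 h1).1 a (by simp)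
  obtain ⟨r0, h0⟩ := hq1.ext1 0 (by omega)
  refine core (fun (a : Fin 3) z => δ z a) (fun a => mono a (hU a))
    (fun z => ¬ ∃ t, Over p.1 t ∧ O t ∧ t.foldl δ z ∈ F) ?_
    (fun a x => ∃ w, OK (q1 ++ w ++ [(a : ℕ)]) ∧ x = (s ++ w ++ [(a : ℕ)]).foldl δ z0) ?_ ?_ ?_ _
    ⟨r0, h0, rfl⟩
  · rintro a z h ⟨t, h1, h2, h3⟩
    exact h ⟨a :: t, List.forall_mem_cons.2 ⟨hU a, h1⟩, List.forall_mem_cons.2 ⟨a.2, h2⟩, h3⟩
  · rintro a _ ⟨w, h, rfl⟩ hc
    obtain ⟨t, h1, h2⟩ := one (w ++ [(a : ℕ)]) (by simpa using h)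
    obtain ⟨h3, h4⟩ := (hS _).1 h1
    exact hc ⟨t, fun b hb => h3 b (by simp [hb]), fun b hb => h2 b (by simp [hb]),
      by simpa using h4⟩
  · rintro a b _ ⟨w, h, rfl⟩ hab
    exact ⟨w ++ [(a : ℕ)], by simpa using h.snoc b.2 (fun e => hab (Fin.ext e)), by simp⟩
  · rintro a _ ⟨w, h, rfl⟩ ⟨t, h1, h2, h3⟩
    obtain ⟨t', h4, h5⟩ := one (w ++ [(a : ℕ)]) (by simpa using h)
    have h6 := ((hS _).1 h4).1
    have := (two (w ++ [(a : ℕ)] ++ [(a : ℕ)]) t ((hS _).2 ⟨fun b hb => ?_, by simpa using h3⟩)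
      fun b hb => ?_).2
    · have := (List.isChain_append.1 (show List.IsChain _ (q1 ++ w ++ [(a : ℕ), a]) by
        simpa using this)).2.1
      simp at this
    · by_cases hb' : b ∈ t
      exacts [h1 b hb', h6 b (by simp only [List.mem_append] at hb ⊢; tauto)]
    · by_cases hb' : b ∈ t
      exacts [h2 b hb', h5 b (by simp only [List.mem_append] at hb ⊢; tauto)]

theorem result : (EC (SLT 2) \ EC ORD).Nonempty := ⟨L, ⟨G2, lang_G2⟩, not_ord⟩

end Pool.Agent.Results.MP_4db40a_lc.Q1
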